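import Mathlib
import Pool.Agent.H990R2.CTFam

open Finset Filter Topology

namespace Pool.Agent.Results.MP_d1aba8_pr.TypicalStartNoCutoff

noncomputable section

/-- `Q` is the generator of an irreducible continuous-time Markov chain on `V`. -/
def IsIrreducibleGenerator {V : Type} [Fintype V] (Q : Matrix V V ℝ) : Prop :=
  (∀ x y, x ≠ y → 0 ≤ Q x y) ∧ (∀ x, ∑ y, Q x y = 0) ∧
    ∀ x y, Relation.ReflTransGen (fun a b => 0 < Q a b) x y

/-- `π` is a stationary distribution of the chain with generator `Q`. -/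
def IsStationary {V : Type} [Fintype V] (Q : Matrix V V ℝ) (π : V → ℝ) : Prop :=
  (∀ x, 0 ≤ π x) ∧ ∑ x, π x = 1 ∧ ∀ y, ∑ x, π x * Q x y = 0

/-- Law of `X_t` under `P_x`: row `x` of the matrix exponential of `t` times the generator. -/
def law {V : Type} [Fintype V] [DecidableEq V] (Q : Matrix V V ℝ) (t : ℝ) (x y : V) : ℝ :=
  NormedSpace.exp (t • Q) x y

/-- `‖P_x(X_t ∈ ·) - π‖`, the total variation distance. -/
def d {V : Type} [Fintype V] [DecidableEq V] (Q : Matrix V V ℝ) (π : V → ℝ) (x : V) (t : ℝ) : ℝ :=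
  (1 / 2 : ℝ) * ∑ y, |law Q t x y - π y|

/-- `τ_x = inf {t ≥ 0 : ‖P_x(X_t ∈ ·) - π‖ ≤ 1/4}`. -/
def tau {V : Type} [Fintype V] [DecidableEq V] (Q : Matrix V V ℝ) (π : V → ℝ) (x : V) : ℝ :=
  sInf {t : ℝ | 0 ≤ t ∧ d Q π x t ≤ 1 / 4}

open Classical in
/-- The `π`-measure of the set of states with the property `A`. -/
def prob {V : Type} [Fintype V] (π : V → ℝ) (A : V → Prop) : ℝ := ∑ x, if A x then π x else 0

/-- `m` is a median of `τ_x` when `x` is drawn from `π`. -/
def IsMedian {V : Type} [Fintype V] [DecidableEq V] (Q : Matrix V V ℝ) (π : V → ℝ)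
    (m : ℝ) : Prop :=
  1 / 2 ≤ prob π (fun x => tau Q π x ≤ m) ∧ 1 / 2 ≤ prob π (fun x => m ≤ tau Q π x)

/-- `g` is the spectral gap: the smallest real part of a nonzero complex eigenvalue of `-Q`. -/
def IsGap {V : Type} [Fintype V] [DecidableEq V] (Q : Matrix V V ℝ) (g : ℝ) : Prop :=
  IsLeast {r : ℝ | ∃ z ∈ spectrum ℂ (-(Q.map Complex.ofReal)), z ≠ 0 ∧ z.re = r} g

section

variable {G : Type} [AddCommGroup G] [Fintype G] [DecidableEq G] {S : Finset G} {T : ℕ}

/-- The generator: jump at rate one to a uniform neighbour in the Cayley graph. -/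
def gen (S : Finset G) (h0 : (0 : G) ∉ S) (hn : ∀ s ∈ S, -s ∈ S) : Matrix G G ℝ :=
  H990R2.CT.srw S h0 hn - 1

theorem d_eq (S : Finset G) (h0 : (0 : G) ∉ S) (hn : ∀ s ∈ S, -s ∈ S) (x : G) (t : ℝ) :
    d (gen S h0 hn) (fun _ => 1 / (Fintype.card G : ℝ)) x t =
      (1 / 2 : ℝ) * ∑ y, |H990R2.CT.H (H990R2.CT.srw S h0 hn) t x y -
        1 / (Fintype.card G : ℝ)| := rfl

theorem tau_eq (S : Finset G) (h0 : (0 : G) ∉ S) (hn : ∀ s ∈ S, -s ∈ S) (x : G) :
    tau (gen S h0 hn) (fun _ => 1 / (Fintype.card G : ℝ)) x =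
      H990R2.CT.tau0 (H990R2.CT.srw S h0 hn) := by
  simp only [tau, H990R2.CT.tau0, d_eq]
  simp only [H990R2.CT.tv_translate (H990R2.CT.srw_mulVec S h0 hn) _ _ x]

theorem prob_const (A : G → Prop) (p : Prop) [Decidable p]
    (hA : ∀ x, A x ↔ p) : prob (fun _ : G => 1 / (Fintype.card G : ℝ)) A = if p then 1 else 0 := by
  have hG : (0 : ℝ) < Fintype.card G := by exact_mod_cast Fintype.card_pos
  simp only [prob, hA]
  split_ifs
  · simp only [Finset.sum_const, Finset.card_univ, nsmul_eq_mul]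
    field_simp
  · simp

theorem srw_entry (h : Helper394.Bad S T) (x y : G) :
    H990R2.CT.srw S h.zero h.neg x y = if y - x ∈ S then 1 / (S.card : ℝ) else 0 :=
  H990R2.CT.P_entry (H990R2.CT.srw_mulVec S h.zero h.neg) x y

theorem gen_irr (h : Helper394.Bad S T) : IsIrreducibleGenerator (gen S h.zero h.neg) := by
  have hSc : (0 : ℝ) < S.card := by exact_mod_cast h.nonempty.card_pos
  refine ⟨?_, ?_, ?_⟩
  · intro x y hxy
    rw [gen, Matrix.sub_apply, Matrix.one_apply_ne hxy, sub_zero, srw_entry h]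
    split_ifs <;> positivity
  · intro x
    simp only [gen, Matrix.sub_apply, Finset.sum_sub_distrib]
    rw [H990R2.CT.P_row h (H990R2.CT.srw_mulVec S h.zero h.neg) x]
    simp [Matrix.one_apply]
  · intro x y
    refine h.closed {z | Relation.ReflTransGen (fun a b => 0 < gen S h.zero h.neg a b) x z} x
      Relation.ReflTransGen.refl ?_ y
    intro z hz s hs
    refine Relation.ReflTransGen.tail hz ?_
    have hs0 : s ≠ 0 := fun h0 => h.zero (h0 ▸ hs)
    have hne : z ≠ z + s := by
      intro h1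
      apply hs0
      exact (left_eq_add.mp h1)
    show 0 < gen S h.zero h.neg z (z + s)
    rw [gen, Matrix.sub_apply, Matrix.one_apply_ne hne, sub_zero, srw_entry h,
      add_sub_cancel_left, if_pos hs]
    positivity

theorem gen_stat (h : Helper394.Bad S T) :
    IsStationary (gen S h.zero h.neg) (fun _ => 1 / (Fintype.card G : ℝ)) := by
  have hG : (0 : ℝ) < Fintype.card G := by exact_mod_cast Fintype.card_pos
  refine ⟨fun x => by positivity, ?_, ?_⟩
  · simp only [Finset.sum_const, Finset.card_univ, nsmul_eq_mul]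
    field_simp
  · intro y
    rw [← Finset.mul_sum]
    have h1 : ∑ x, gen S h.zero h.neg x y = 0 := by
      have h2 := (gen_irr h).2.1 y
      rw [← h2]
      refine Finset.sum_congr rfl fun x _ => ?_
      rw [gen, Matrix.sub_apply, Matrix.sub_apply,
        H990R2.CT.P_symm h (H990R2.CT.srw_mulVec S h.zero h.neg) x y]
      simp [Matrix.one_apply, eq_comm]
    rw [h1, mul_zero]

theorem gap_exists (h : Helper394.Bad S T) :
    ∃ g, IsGap (gen S h.zero h.neg) g ∧ 1 / 4 ≤ g := by
  have hP := H990R2.CT.srw_mulVec S h.zero h.neg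
  set A : Set ℝ := {r : ℝ | ∃ z ∈ spectrum ℂ (-((gen S h.zero h.neg).map Complex.ofReal)),
    z ≠ 0 ∧ z.re = r} with hA
  have hfin : A.Finite := by
    have h1 : (spectrum ℂ (-((gen S h.zero h.neg).map Complex.ofReal))).Finite :=
      Matrix.finite_spectrum _
    refine (h1.image Complex.re).subset ?_
    rintro r ⟨z, hz, _, rfl⟩
    exact ⟨z, hz, rfl⟩
  obtain ⟨z, hz, hz0⟩ := H990R2.CT.specC_nonempty h hP
  have hne : A.Nonempty := ⟨z.re, z, hz, hz0, rfl⟩
  obtain ⟨g, hg, hmin⟩ := Set.exists_min_image A id hfin hne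
  refine ⟨g, ⟨hg, fun r hr => hmin r hr⟩, ?_⟩
  obtain ⟨z, hz, hz0, rfl⟩ := hg
  exact H990R2.CT.specC h hP z hz hz0

end

/-- There is a sequence of finite irreducible continuous-time Markov chains (state spaces `V n`,
generators `Q n`, stationary distributions `π n`, medians `τ n`, spectral gaps `g n`) with
`τ / τ₂ → ∞` such that for `ε = 1/2000` the `π`-measure of the states from which the total
variation distance at time `(1-ε) τ` exceeds `1-ε` does not tend to one; in fact it is zero. -/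
theorem result :
    ∃ (V : ℕ → Type) (_ : ∀ n, Fintype (V n)) (_ : ∀ n, DecidableEq (V n))
      (Q : ∀ n, Matrix (V n) (V n) ℝ) (π : ∀ n, V n → ℝ) (τ g : ℕ → ℝ),
      Tendsto (fun n => Fintype.card (V n)) atTop atTop ∧
      (∀ n, IsIrreducibleGenerator (Q n)) ∧
      (∀ n, IsStationary (Q n) (π n)) ∧
      (∀ n m, IsMedian (Q n) (π n) m ↔ m = τ n) ∧
      (∀ n, IsGap (Q n) (g n)) ∧
      Tendsto (fun n => τ n / (1 / g n)) atTop atTop ∧
      (∀ n, prob (π n) (fun x => 1 - 1 / 2000 <
        d (Q n) (π n) x ((1 - 1 / 2000) * τ n)) = 0) ∧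
      ¬ (∀ ε : ℝ, 0 < ε →
        Tendsto (fun n => prob (π n) (fun x => 1 - ε < d (Q n) (π n) x ((1 - ε) * τ n)))
          atTop (𝓝 1) ∧
        Tendsto (fun n => prob (π n) (fun x => d (Q n) (π n) x ((1 + ε) * τ n) < ε))
          atTop (𝓝 1)) := by
  choose N hN S hTN hS using fun n : ℕ => Helper394.exists_bad (n + 64) (by omega)
  let P : ∀ n, Matrix (ZMod (N n)) (ZMod (N n)) ℝ := fun n =>
    H990R2.CT.srw (S n) (hS n).zero (hS n).neg
  have hP : ∀ n, ∀ f : ZMod (N n) → ℝ, (P n).mulVec f = Helper394.U (S n) f :=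
    fun n f => H990R2.CT.srw_mulVec (S n) _ _ f
  have hτ : ∀ n : ℕ, ((n : ℝ) + 64) / 2 ≤ H990R2.CT.tau0 (P n) := by
    intro n
    have := H990R2.CT.tau0_ge (hS n) (by omega) (hP n)
    push_cast at this
    exact this
  choose g hg hg4 using fun n => gap_exists (hS n)
  have hzero : ∀ n, prob (fun _ : ZMod (N n) => 1 / (Fintype.card (ZMod (N n)) : ℝ))
      (fun x => 1 - 1 / 2000 < d (gen (S n) (hS n).zero (hS n).neg)
        (fun _ => 1 / (Fintype.card (ZMod (N n)) : ℝ)) x
        ((1 - 1 / 2000) * H990R2.CT.tau0 (P n))) = 0 := by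
    intro n
    have h3 := prob_const (G := ZMod (N n)) (fun x => 1 - 1 / 2000 <
      d (gen (S n) (hS n).zero (hS n).neg) (fun _ => 1 / (Fintype.card (ZMod (N n)) : ℝ)) x
        ((1 - 1 / 2000) * H990R2.CT.tau0 (P n))) False (fun x => by
        rw [iff_false, not_lt]
        have h4 := H990R2.CT.tv_upper (hS n) (by omega) (hP n)
          (t := (1 - 1 / 2000) * H990R2.CT.tau0 (P n)) (by
            have := hτ n
            have hn : (0 : ℝ) ≤ n := Nat.cast_nonneg n
            push_cast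
            linarith) x
        rw [d_eq]
        exact h4)
    rw [if_neg not_false] at h3
    exact h3
  refine ⟨fun n => ZMod (N n), fun n => inferInstance, fun n => inferInstance,
    fun n => gen (S n) (hS n).zero (hS n).neg,
    fun n _ => 1 / (Fintype.card (ZMod (N n)) : ℝ),
    fun n => H990R2.CT.tau0 (P n), g, ?_, fun n => gen_irr (hS n), fun n => gen_stat (hS n),
    ?_, hg, ?_, hzero, ?_⟩
  · refine tendsto_atTop_mono (fun n => ?_) tendsto_id
    rw [ZMod.card]
    have := hTN n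
    simp only [id]
    omega
  · intro n m
    classical
    rw [IsMedian, prob_const _ (H990R2.CT.tau0 (P n) ≤ m)
        (fun x => by rw [tau_eq]),
      prob_const _ (m ≤ H990R2.CT.tau0 (P n)) (fun x => by rw [tau_eq])]
    constructor
    · rintro ⟨h1, h2⟩
      have h3 : H990R2.CT.tau0 (P n) ≤ m := by
        by_contra hcon
        rw [if_neg hcon] at h1
        norm_num at h1
      have h4 : m ≤ H990R2.CT.tau0 (P n) := by
        by_contra hcon
        rw [if_neg hcon] at h2
        norm_num at h2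
      exact le_antisymm h4 h3
    · rintro rfl
      rw [if_pos le_rfl]
      norm_num
  · have h5 : Tendsto (fun n : ℕ => (n : ℝ) / 8) atTop atTop :=
      tendsto_natCast_atTop_atTop.atTop_div_const (by norm_num)
    refine tendsto_atTop_mono (fun n => ?_) h5
    have h8 := hτ n
    have h9 := hg4 n
    have hn : (0 : ℝ) ≤ n := Nat.cast_nonneg n
    rw [div_div_eq_mul_div, div_one]
    nlinarith
  · intro hcut
    obtain ⟨h1, _⟩ := hcut (1 / 2000) (by norm_num)
    rw [tendsto_congr hzero] at h1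
    have := tendsto_nhds_unique h1 tendsto_const_nhds
    norm_num at this

end

end Pool.Agent.Results.MP_d1aba8_pr.TypicalStartNoCutoff
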